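import Mathlib
import Pool.Agent.U514.PD.WNum
import Pool.Agent.R643.WZb

/-!
# Zero-sum 3SUM on sorted lists by word circuits drawn in the plane

The input is an INCREASING list of `m` integers between `-m²` and `m²`; we ask if three of them at
different places have sum zero. The model is the word circuit of the library
(`Pool.Agent.Y631.Wc.WCirc`): the gates hold words (elements of a finite set `Z`), and a gate
computes an ARBITRARY function (or, in part (1), relation) of at most `κ` items of the list and
words of earlier gates. The parameters are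

* the number of reads `C.reads`: the number of wires from items of the list to gates,
* the number of gates `C.size`,
* the number `k` of crossings in a drawing of the graph of the gates in the plane (the items, and
  the wires from them, are deleted): vertices are points, edges are simple arcs which avoid the
  other vertices, and a crossing is a point in the interior of two arcs, counted for each pair.

**Result.** A circuit which reads the list `r` times on average, with words of `O (log m)` bits and
bounded fan-in, has `gates + crossings ≥ c_r m²`, with `c_r = 2 ^ (-48 r - O (1)) / r⁴`, although the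
list is already sorted. So planar circuits which read the sorted list `O (1)` times have at least
`c m²` gates; with `m ^ (2 - ε)` gates and crossings one needs `Ω (ε m log m)` reads.

**Proof.** A graph with `s` vertices, drawn with `k` crossings, has a tree decomposition with bags
of size `O (√(s + k))` (`Pool.Agent.U514.PD.W.treewidth_of_drawn`; from the planar separator theorem
for drawn graphs of the library, by the repeated splitting of regions). The trade-off between
treewidth and reads for sorted lists is the one of the starting result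
`MP_8f87b2_lc.SortedListsTreewidthTimesReads`.
-/

set_option autoImplicit false

namespace Pool.Agent.Results.MP_8f87b2_lc.CrossingNumber

open Pool.Agent.Y631.Wc Pool.Agent.U514.PD.W Pool.Agent.R643.WZ

/-- Let `C` be a word circuit for lists of `m` integers, whose gates have fan-in at most `κ`, with at
most `r m` reads, whose graph of gates can be drawn in the plane with at most `k` crossings.

(1) If `C` (nondeterministic, words of `b` bits) accepts exactly the increasing lists (of integers
between `-m²` and `m²`) without three numbers with sum zero then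
`m² ≤ 2 ^ (48 r + 46) r⁴ (κ + 1)² b² (gates + k)`.

(2) The same inequality holds if the words have `b log₂ m` bits, `C` has at most one accepting
computation for each input (for instance the gates compute functions), and `C` decides for
increasing lists if there are three numbers with sum zero.

(3) For all `c`, `κ` and `0 < ε ≤ 2` and all large `m`: if random circuits as in (2) of fan-in `κ`
whose gates have at most `m ^ c` values (words of `c log m` bits), with
`gates + crossings ≤ m ^ (2 - ε)`, always decide the question for increasing lists correctly, then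
the expected number of reads is at least `(ε / 90) m log₂ m`. -/
theorem result :
    (∀ {r κ m b k : ℕ}, 1 ≤ r → 1 ≤ b → ∀ {Z : Type} [Fintype Z], Fintype.card Z ≤ 2 ^ b →
      ∀ C : WCirc (Fin m) ℤ Z, C.FanIn κ → CrossingsLE C k → C.reads ≤ r * m →
      (∀ x, IsSorted x → (C.Accepts x ↔ ¬ HasZero x)) →
      m ^ 2 ≤ 2 ^ (48 * r + 46) * (r ^ 4 * (κ + 1) ^ 2 * b ^ 2 * (C.size + k))) ∧
    (∀ {r κ m b k : ℕ}, 1 ≤ r → 1 ≤ b → ∀ {Z : Type} [Fintype Z], Fintype.card Z ≤ m ^ b →
      ∀ C : WCirc (Fin m) ℤ Z, C.FanIn κ → CrossingsLE C k → C.reads ≤ r * m → C.Unambiguous →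
      ((∀ x, IsSorted x → (C.Accepts x ↔ HasZero x)) ∨
        (∀ x, IsSorted x → (C.Accepts x ↔ ¬ HasZero x))) →
      m ^ 2 ≤ 2 ^ (48 * r + 46) * (r ^ 4 * (κ + 1) ^ 2 * b ^ 2 * (C.size + k))) ∧
    ∀ (c κ : ℕ) (ε : ℝ), 0 < ε → ε ≤ 2 → ∃ m₀ : ℕ, ∀ m ≥ m₀, ∀ (Z : Type) [Fintype Z],
      Fintype.card Z ≤ m ^ c → ∀ (Ω : Type) [Fintype Ω] (p : Ω → ℝ), (∀ ω, 0 ≤ p ω) →
      ∑ ω, p ω = 1 → ∀ (C : Ω → WCirc (Fin m) ℤ Z) (k : Ω → ℕ),
        (∀ ω, (C ω).FanIn κ ∧ CrossingsLE (C ω) (k ω) ∧
          (((C ω).size + k ω : ℕ) : ℝ) ≤ (m : ℝ) ^ (2 - ε) ∧ (C ω).Unambiguous ∧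
          ((∀ x, IsSorted x → ((C ω).Accepts x ↔ HasZero x)) ∨
            (∀ x, IsSorted x → ((C ω).Accepts x ↔ ¬ HasZero x)))) →
        ε / 90 * (m * Real.logb 2 m) ≤ ∑ ω, p ω * (C ω).reads := by
  have hsmall : ∀ {Z : Type} {m : ℕ} (C : WCirc (Fin m) ℤ Z) {r κ b k : ℕ}, 1 ≤ r → 1 ≤ b →
      m < 2 → m ^ 2 ≤ 2 ^ (48 * r + 46) * (r ^ 4 * (κ + 1) ^ 2 * b ^ 2 * (C.size + k)) := by
    intro Z m C r κ b k hr hb hm
    have hs : 1 ≤ C.size := by
      have := C.out.2
      omega
    have h1 : m ^ 2 ≤ 1 := by interval_cases m <;> norm_num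
    have h2 : 0 < 2 ^ (48 * r + 46) * (r ^ 4 * (κ + 1) ^ 2 * b ^ 2 * (C.size + k)) := by
      positivity
    omega
  refine ⟨?_, ?_, ?_⟩
  · intro r κ m b k hr hb Z _ hZ C hκ hk hR hC
    by_cases hm : m < 2
    · exact hsmall C hr hb hm
    obtain ⟨θ, h1, h2⟩ := treewidth_of_drawn C k hk
    have h3 := (zero_bounds (q := 2) hr le_rfl (by
      calc 2 = 2 ^ 1 := (pow_one 2).symm
        _ ≤ 2 ^ b := Nat.pow_le_pow_right (by norm_num) hb) (by omega) hZ C hκ h1 hR).1 hC
    have hs : 1 ≤ C.size := by
      have := C.out.2
      omega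
    exact quadratic hr (by omega) hb le_rfl h2 (h3.trans (Nat.le_succ _))
  · intro r κ m b k hr hb Z _ hZ C hκ hk hR hU hC
    by_cases hm : m < 2
    · exact hsmall C hr hb hm
    obtain ⟨θ, h1, h2⟩ := treewidth_of_drawn C k hk
    have h3 := zero_bounds (q := m) hr (by omega) (by
      calc m = m ^ 1 := (pow_one m).symm
        _ ≤ m ^ b := Nat.pow_le_pow_right (by omega) hb) le_rfl hZ C hκ h1 hR
    have hs : 1 ≤ C.size := by
      have := C.out.2
      omega
    rcases hC with hC | hC
    · exact quadratic hr (by omega) hb (by omega) h2 (h3.2.2 hU hC)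
    · exact quadratic hr (by omega) hb (by omega) h2 ((h3.2.1 hU hC).trans (Nat.le_succ _))
  · intro c κ ε hε hε2
    obtain ⟨m₁, hm₁⟩ := zero_superlinear c κ (ε / 3) (by positivity) (by linarith)
    obtain ⟨m₂, h2, hm₂⟩ := width_small ε hε
    refine ⟨max m₁ m₂, fun m hm Z _ hZ Ω _ p hp hp1 C k h => ?_⟩
    apply average p hp hp1
    intro ω
    obtain ⟨hκ, hk, hs, hU, hC⟩ := h ω
    obtain ⟨θ, h3, h4⟩ := treewidth_of_drawn (C ω) (k ω) hk
    have hs1 : 1 ≤ (C ω).size := by
      have := (C ω).out.2
      omega
    have h5 := hm₂ m ((le_max_right _ _).trans hm) _ θ (by omega) hs h4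
    have h6 := hm₁ m ((le_max_left _ _).trans hm) Z hZ (C ω) ⌊(m : ℝ) ^ (1 - ε / 3)⌋₊ hκ
      (tw_mono h3 h5) (Nat.floor_le (by positivity)) hU hC
    calc ε / 90 * (m * Real.logb 2 m) = ε / 3 / 30 * (m * Real.logb 2 m) := by ring
      _ ≤ _ := h6

end Pool.Agent.Results.MP_8f87b2_lc.CrossingNumber
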