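import Mathlib
import Pool.Agent.U286.LY.WcN
import Pool.Agent.R643.WZb

/-!
# 3SUM on sorted lists by word circuits laid out in a lattice: volume `m ^ (D / (D - 1))`

The input is an INCREASING list of `m` integers between `-m²` and `m²`; we ask if three of them at
different places have sum zero. The model is the word circuit of the
library (`Pool.Agent.Y631.Wc.WCirc`): the gates hold words (elements of a finite set `Z`), and a gate
computes an ARBITRARY function or relation of at most `κ` items of the list and words of earlier
gates. The items are not placed: they can be read everywhere; `C.reads`, the number of the wires from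
items to gates, is counted.

The circuit is laid out in a host graph of cells (`Layout`): every gate (with the wires that leave
it, if one likes) occupies a nonempty connected region of cells, every cell belongs to at most `c`
regions (`c` layers), and if there is a wire between two gates then their regions meet or touch. In
other words, the graph of the gates is a minor of the strong product of the host graph and the
complete graph with `c` vertices. The regions may have any shape and size.

**Result.** Let every set of `n` cells of the host graph be divided by at most `K n ^ α` cells into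
parts with at most `ϑ n` cells (`HasSep`). A circuit which reads the list `r` times on average, with
words of `b log m` bits, fan-in `κ` and load `c`, needs `v` cells with
`c v ^ α ≥ m / (C_r (κ + 1) b)`. For the `D`-dimensional lattice `α = 1 - 1 / D`, so the volume is at
least `c_r m ^ (D / (D - 1))`, for instance `c_r m ^ (3 / 2)` for three-dimensional circuits. If
`c v ^ α ≤ m ^ (1 - ε)` then one needs `Ω (ε m log m)` reads, also on average over random circuits that
are always correct.

**Proof.** New are the separator theorem for arbitrary finite sets of points of a lattice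
(`Pool.Agent.U286.LY.hasSep_lattice`, by hyperplanes), the passage to arbitrary weights
(`HasSep.weighted`) and the treewidth of layouts (`treewidth_of_layout`): every layout on `v` cells
with load `c` has an elimination order with bags of size `O (c v ^ α)`, which is found by repeated
separation of the WHOLE set of cells, with the boundary of a region as weight.
The trade-off between treewidth and reads for sorted lists is that of the starting result
`MP_8f87b2_lc.SortedListsTreewidthTimesReads`. Hand-in `CrossingNumber` is about planar drawings with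
crossings (treewidth `O (√(gates + crossings))`).
-/

set_option autoImplicit false

namespace Pool.Agent.Results.MP_8f87b2_lc.LatticeLayouts

open Pool.Agent.Y631.Wc Pool.Agent.U286.LY Pool.Agent.R643.WZ

theorem tradeOff {m : ℕ} : TradeOff m (Y := ℤ) IsSorted HasZero := by
  intro r κ θ q L hr hq hqL hqm Z _ hZ C hκ hθ hR
  exact zero_bounds hr hq hqL hqm hZ C hκ hθ hR

/-- Let `C` be a word circuit for increasing lists of `m` integers, of fan-in at most `κ`, with at
most `r m` reads, which solves the question (`Solves`): it is nondeterministic with words of `b` bits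
and accepts exactly the lists without three numbers with sum zero, or it has at most one accepting computation for each input (for
instance, the gates compute functions), words of `b log₂ m` bits and decides the question.

(1) If `C` is laid out, with load at most `c`, on at most `v` cells of a host graph with separators of
size `K n ^ α` (`0 < α`; parts of at most `ϑ n` cells, `ϑ < 1`) then
`m ≤ 2 ^ (24 r + 17) (K / (1 - ϑ ^ α) + 2) r² (κ + 1) b c v ^ α`.

(2) If `C` is laid out, with load at most `c`, on the finite set `J` of cells of the `D`-dimensional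
lattice, `D ≥ 2`, then `m ^ D ≤ (2 ^ (24 r + 22) D r² (κ + 1) b c) ^ D |J| ^ (D - 1)`.

(3) For all `a`, `κ`, `0 < ε ≤ 1`, `K`, `α`, `ϑ` as in (1) and all large `m`: if random circuits of
fan-in `κ`, with at most `m ^ a` words and at most one accepting computation for each input, always
decide the question correctly, and each of them is laid out, with load `c`, on `v` cells of a host
graph as in (1) such that `c v ^ α ≤ m ^ (1 - ε)`, then the expected number of reads is at least
`(ε / 60) m log₂ m`. -/
theorem result :
    (∀ {K α ϑ : ℝ}, 0 ≤ K → 0 < α → 0 ≤ ϑ → ϑ < 1 → ∀ {r κ m b c v : ℕ}, 1 ≤ r → 1 ≤ b →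
      ∀ {Z : Type} [Fintype Z] (C : WCirc (Fin m) ℤ Z), C.FanIn κ → C.reads ≤ r * m →
      Solves IsSorted HasZero C b → LaidOut C.Joined K α ϑ v c →
      (m : ℝ) ≤ 2 ^ (24 * r + 17) * (K / (1 - ϑ ^ α) + 2) *
        (r ^ 2 * (κ + 1) * b * (c * (v : ℝ) ^ α))) ∧
    (∀ {D r κ m b c : ℕ}, 2 ≤ D → 1 ≤ r → 1 ≤ b →
      ∀ {Z : Type} [Fintype Z] (C : WCirc (Fin m) ℤ Z), C.FanIn κ → C.reads ≤ r * m →
      Solves IsSorted HasZero C b → ∀ (J : Finset (Fin D → ℤ)) (reg : Fin C.size → Finset (Fin D → ℤ)),
      Layout C.Joined (lattice D) J c reg →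
      m ^ D ≤ (2 ^ (24 * r + 22) * (D * r ^ 2 * (κ + 1) * b * c)) ^ D * J.card ^ (D - 1)) ∧
    ∀ (a κ : ℕ) {K α ϑ : ℝ}, 0 ≤ K → 0 < α → 0 ≤ ϑ → ϑ < 1 → ∀ (ε : ℝ), 0 < ε → ε ≤ 1 →
      ∃ m₀ : ℕ, ∀ m ≥ m₀, ∀ (Z : Type) [Fintype Z], Fintype.card Z ≤ m ^ a →
      ∀ (Ω : Type) [Fintype Ω] (p : Ω → ℝ), (∀ ω, 0 ≤ p ω) → ∑ ω, p ω = 1 →
      ∀ (C : Ω → WCirc (Fin m) ℤ Z) (c v : Ω → ℕ),
        (∀ ω, (C ω).FanIn κ ∧ LaidOut (C ω).Joined K α ϑ (v ω) (c ω) ∧
          (c ω : ℝ) * (v ω : ℝ) ^ α ≤ (m : ℝ) ^ (1 - ε) ∧ (C ω).Unambiguous ∧
          ((∀ x, IsSorted x → ((C ω).Accepts x ↔ HasZero x)) ∨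
            (∀ x, IsSorted x → ((C ω).Accepts x ↔ ¬ HasZero x)))) →
        ε / 60 * (m * Real.logb 2 m) ≤ ∑ ω, p ω * (C ω).reads := by
  refine ⟨?_, ?_, ?_⟩
  · intro K α ϑ hK hα hϑ0 hϑ r κ m b c v hr hb Z _ C hκ hR hC h
    exact wc_hosts (tradeOff) hK hα hϑ0 hϑ hr hb C hκ hR hC h
  · intro D r κ m b c hD hr hb Z _ C hκ hR hC J reg h
    exact wc_lattice (tradeOff) hD hr hb C hκ hR hC h
  · intro a κ K α ϑ hK hα hϑ0 hϑ ε hε hε1
    obtain ⟨m₀, hm₀⟩ := wc_random (fun _ _ => True) (fun _ _ x => IsSorted x) (fun _ x => HasZero x) a κ (fun ε hε hε1 => by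
      obtain ⟨m₁, hm₁⟩ := zero_superlinear a κ ε hε hε1
      exact ⟨m₁, fun m hm n _ => hm₁ m hm⟩) hK hα hϑ0 hϑ ε hε hε1
    exact ⟨m₀, fun m hm => hm₀ m hm 0 trivial⟩

end Pool.Agent.Results.MP_8f87b2_lc.LatticeLayouts
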